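import Pool.Agent.H76.SW.T

/-! Module S1 of the board stw_modules. -/

set_option autoImplicit false

namespace Pool.Agent.H92.SW

open Pool.Agent.H76.SW

theorem pf_S1 : U_s1_symm := by
  intro A T
  induction T with
  | edge a =>
    intro x l y h
    simp only [Term.stp] at h ⊢
    rcases h with ⟨h1, h2, h3⟩ | ⟨h1, h2, h3⟩
    · right
      exact ⟨h3, by rw [h2]; rfl, h1⟩
    · left
      exact ⟨h3, by rw [h2]; rfl, h1⟩
  | node n m src tgt ch p q ih =>
    intro x l y h
    simp only [Term.stp] at h ⊢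
    rcases h with ⟨i, x', y', h1, h2, h3⟩ | ⟨hl, i, b, h⟩
    · left
      exact ⟨i, y', x', h2, h1, ih i x' l y' h3⟩
    · right
      refine ⟨by rw [hl]; rfl, i, b, ?_⟩
      rcases h with ⟨h1, h2⟩ | ⟨h1, h2⟩
      · right
        exact ⟨h1, h2⟩
      · left
        exact ⟨h1, h2⟩

end Pool.Agent.H92.SW
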