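import Pool.Agent.H76.SW.T

/-! Module S2 of the board stw_modules. -/

set_option autoImplicit false

namespace Pool.Agent.H92.SW

open Pool.Agent.H76.SW

theorem pf_S2 : U_s2_fin := by
  intro A T
  induction T with
  | edge a =>
    show Finite Bool
    infer_instance
  | node n m src tgt ch p q ih =>
    show Finite (Fin n ⊕ (Σ i : Fin m, (ch i).Pos))
    have : ∀ i : Fin m, Finite (ch i).Pos := ih
    infer_instance

end Pool.Agent.H92.SW
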